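import Mathlib

set_option autoImplicit false

namespace Pool.Agent.Results.MP_a62e4d_an.NotUES

/-- `evol A k n = A (k+n-1) ∘ ⋯ ∘ A k`, that is the evolution operator `A_{k+n}^k` -/
def evol {X : Type} [NormedAddCommGroup X] [NormedSpace ℝ X] (A : ℕ → X →L[ℝ] X) (k : ℕ) :
    ℕ → X →L[ℝ] X
  | 0 => ContinuousLinearMap.id ℝ X
  | n + 1 => (A (k + n)).comp (evol A k n)

abbrev L : Type := lp (fun _ : ℕ => ℝ) 1

noncomputable def e (n : ℕ) : L := lp.single 1 n 1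

noncomputable def A (n : ℕ) : L →L[ℝ] L :=
  (lp.evalCLM ℝ (fun _ : ℕ => ℝ) 1 n).smulRight (e (n + 1))

lemma A_apply (n : ℕ) (x : L) : A n x = x n • e (n + 1) := rfl

lemma e_self (n : ℕ) : e n n = 1 := by simp [e]

lemma norm_e (n : ℕ) : ‖e n‖ = 1 := by simp [e]

lemma evol_succ (k n : ℕ) (x : L) : evol A k (n + 1) x = x k • e (k + n + 1) := by
  induction n with
  | zero => rfl
  | succ n ih =>
    change A (k + (n + 1)) (evol A k (n + 1) x) = _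
    rw [ih, map_smul, A_apply, ← add_assoc, e_self, one_smul]

theorem result : ∃ (X : Type) (_ : NormedAddCommGroup X) (_ : NormedSpace ℝ X),
    CompleteSpace X ∧ ∃ A : ℕ → X →L[ℝ] X,
      (∃ B : ℝ, 1 ≤ B ∧ ∀ (m : ℕ) (x : X),
        ∑ k ∈ Finset.range (m + 1), ‖evol A k (m - k) x‖ ≤ B * ‖x‖) ∧
      ¬ ∃ N ν : ℝ, 1 ≤ N ∧ 0 < ν ∧ ∀ (m k : ℕ), k ≤ m → ∀ x : X,
        ‖evol A k (m - k) x‖ ≤ N * Real.exp (-ν * ((m : ℝ) - k)) * ‖x‖ := by
  refine ⟨L, inferInstance, inferInstance, inferInstance, A, ⟨2, by norm_num, fun m x => ?_⟩, ?_⟩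
  · rw [Finset.sum_range_succ, Nat.sub_self]
    have h1 : ∑ k ∈ Finset.range m, ‖evol A k (m - k) x‖ = ∑ k ∈ Finset.range m, ‖x k‖ := by
      refine Finset.sum_congr rfl fun k hk => ?_
      obtain ⟨n, hn⟩ : ∃ n, m - k = n + 1 := ⟨m - k - 1, by have := Finset.mem_range.mp hk; omega⟩
      rw [hn, evol_succ, norm_smul, norm_e, mul_one]
    have h2 : ∑ k ∈ Finset.range m, ‖x k‖ ≤ ‖x‖ := by
      simpa using lp.sum_rpow_le_norm_rpow (p := 1) (by simp) x (Finset.range m)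
    have h3 : ‖evol A m 0 x‖ = ‖x‖ := rfl
    rw [h1, h3]
    linarith
  · rintro ⟨N, ν, hN, hν, h⟩
    obtain ⟨n, hn⟩ := exists_nat_gt (N / ν)
    have h1 := h (n + 1) 0 (Nat.zero_le _) (e 0)
    rw [Nat.sub_zero, evol_succ, e_self, one_smul, norm_e, norm_e, mul_one, neg_mul, Real.exp_neg,
      ← div_eq_mul_inv, one_le_div (Real.exp_pos _)] at h1
    have h2 := Real.add_one_le_exp (ν * (((n + 1 : ℕ) : ℝ) - (0 : ℕ)))
    rw [div_lt_iff₀ hν] at hn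
    push_cast at h1 h2
    nlinarith

end Pool.Agent.Results.MP_a62e4d_an.NotUES
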